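import Mathlib
import Pool.Agent.H532.HY.Real
import Pool.Agent.H532.HY.Hyp
import Pool.Agent.H532.RM.Bft

/-!
# Large gaps in hybrid models: deterministic small primes, random large primes

In the random model of Banks, Ford and Tao (Large prime gaps and probabilistic models, Invent.
Math. 2023) the primes are replaced by the set of the integers `n` outside the random residue class
`a_p` modulo `p` for all primes `p ≤ z(n)`, `∏_{p ≤ z(n)} (1 - 1/p) ≈ 1 / log n`. On the integers the
classes are not random: they are the classes `0 mod p`.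

Here only the classes of the primes `p > y` are random, where `y = x ^ (o(1))` is arbitrary; the
classes of the primes `p ≤ y` are arbitrary deterministic classes, for example the true classes
`0 mod p`, and may change from one dyadic block to the next. The theorem shows that for EVERY choice
of these classes the largest gap up to `x` is at least `(2 e ^ (-γ) - o(1)) (log x) ^ 2`, almost
surely. So in all these models, whatever the small primes do, there are intervals
`(x, x + c (log x) ^ 2)` without elements for arbitrarily large `x`, for every constant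
`c < 2 e ^ (-γ) = 1.12...`: Schinzel's conjecture (the case `c = 1`) fails infinitely often. Moreover the number of the intervals of length `H` in `[X, 2 X)` without
elements is at least `X exp (- (m + o(1)) H / log X)`, uniformly for
`log X (loglog X)³ ≤ H ≤ C (log X)²`, where `m` is the normalised minimum of the interval sieve by
the primes up to `H / log X`. This is the number in the fully random model (`y = 1`): no choice of
the classes of the small primes makes large gaps rarer.
-/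

open Finset MeasureTheory ProbabilityTheory Filter
open scoped ENNReal Topology

namespace Pool.Agent.Results.MP_45ff98_nt.EveryHybridSieve

/-- `A p`, `p` prime, are independent random variables and `A p` is uniformly distributed on
`{0, …, p - 1}`. -/
structure RandomClasses {Ω : Type} [MeasurableSpace Ω] (μ : Measure Ω) (A : ℕ → Ω → ℕ) :
    Prop where
  meas : ∀ p, Measurable (A p)
  indep : iIndepFun (fun p : Nat.Primes => A p) μ
  unif : ∀ p : ℕ, p.Prime → ∀ r < p, μ {ω | A p ω = r} = (p : ℝ≥0∞)⁻¹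

/-- `V z = ∏_{p ≤ z} (1 - 1 / p)`. -/
noncomputable def V (z : ℕ) : ℝ := ∏ p ∈ (range (z + 1)).filter Nat.Prime, (1 - 1 / (p : ℝ))

/-- The integers `n` are sieved by the primes up to `z n`; this leaves the density `1 / log n`. -/
structure SievingLimit (z : ℕ → ℕ) : Prop where
  mono : Monotone z
  lim : Tendsto (fun n : ℕ => V (z n) * Real.log n) atTop (𝓝 1)

/-- The sieving limit of Banks, Ford and Tao: the largest `z` with `V z ≥ 1 / log n`. -/
noncomputable def banksFordTao (n : ℕ) : ℕ := sSup {z : ℕ | 1 / Real.log n ≤ V z}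

/-- The hybrid sieve: the integers `n` which are, for all primes `p ≤ z n`, outside the residue
class `c p` modulo `p`, where, if `2 ^ j ≤ n < 2 ^ (j + 1)`, `c p = b j p` is deterministic for
`p ≤ y j` and `c p = a p` is random for `p > y j`. -/
def hybrid (z y : ℕ → ℕ) (b : ℕ → ℕ → ℕ) (a : ℕ → ℕ) : Set ℕ :=
  {n | ∀ p : ℕ, p.Prime → p ≤ z n →
    ¬ n ≡ (if p ≤ y (Nat.log 2 n) then b (Nat.log 2 n) p else a p) [MOD p]}

/-- The number of the `m` such that the interval `(m, m + H]` is contained in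
`[2 ^ j, 2 ^ (j + 1))` and contains no element of `R`. -/
noncomputable def emptyIntervals (R : Set ℕ) (j H : ℕ) : ℕ :=
  {m : ℕ | 2 ^ j ≤ m ∧ m + H < 2 ^ (j + 1) ∧ ∀ n ∈ R, m < n → m + H < n}.ncard

/-- The number of the integers `n`, `m < n ≤ m + U`, without prime factors `p ≤ ζ`. -/
def sifted (m U ζ : ℕ) : ℕ :=
  ((Ioc m (m + U)).filter (fun n => ∀ p ≤ ζ, p.Prime → ¬ p ∣ n)).card

/-- `min_m #{m < n ≤ m + U : n has no prime factor ≤ ζ}`, divided by `U ∏_{p ≤ ζ} (1 - 1 / p)`. -/
noncomputable def minSifted (U ζ : ℕ) : ℝ := ((⨅ m, sifted m U ζ : ℕ) : ℝ) / (U * V ζ)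

lemma sifted_eq (m U ζ : ℕ) :
    sifted m U ζ = Pool.Agent.H532.RM.T1 (fun _ => 0) ζ m U := by
  unfold sifted Pool.Agent.H532.RM.T1
  congr 1
  ext n
  rw [Pool.Agent.H532.RM.mem_T1, mem_filter, mem_Ioc]
  constructor
  · rintro ⟨h1, h2⟩
    refine ⟨h1, fun p hp h3 => ?_⟩
    rw [Nat.zero_mod] at h3
    have hp' := Pool.Agent.H532.RM.mem_primesLe.1 hp
    exact h2 p hp'.1 hp'.2 (Nat.dvd_of_mod_eq_zero h3)
  · rintro ⟨h1, h2⟩
    refine ⟨h1, fun p hp hpp h3 => ?_⟩
    have := h2 p (Pool.Agent.H532.RM.mem_primesLe.2 ⟨hp, hpp⟩)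
    rw [Nat.zero_mod] at this
    exact this (Nat.mod_eq_zero_of_dvd h3)

lemma minSifted_eq (U ζ : ℕ) : minSifted U ζ = Pool.Agent.H532.RM.rm U ζ := by
  unfold minSifted Pool.Agent.H532.RM.rm Pool.Agent.H532.RM.smin
  simp only [sifted_eq]
  rfl

/-- **Large gaps in every hybrid model.** -/
theorem result :
    -- the model exists
    (∃ μ : Measure (ℕ → ℕ), IsProbabilityMeasure μ ∧ RandomClasses μ (fun p ω => ω p)) ∧
    SievingLimit banksFordTao ∧
    ∀ (Ω : Type) [MeasurableSpace Ω] (μ : Measure Ω)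
      [IsProbabilityMeasure μ] (A : ℕ → Ω → ℕ), RandomClasses μ A → ∀ z : ℕ → ℕ,
      SievingLimit z → ∀ (y : ℕ → ℕ) (b : ℕ → ℕ → ℕ),
      -- `y = x ^ (o(1))`, and `b` is arbitrary
      Tendsto (fun j : ℕ => Real.log (y j) / j) atTop (𝓝 0) →
      -- the largest gap
      (∀ c : ℝ, c < 2 * Real.exp (-Real.eulerMascheroniConstant) → ∀ᵐ ω ∂μ, ∀ᶠ x : ℝ in atTop,
        ∃ m : ℕ, x / 4 ≤ m ∧ (m : ℝ) + c * Real.log x ^ 2 ≤ x ∧
          ∀ n ∈ hybrid z y b (fun p => A p ω), (m : ℝ) < n →
            (m : ℝ) + c * Real.log x ^ 2 < n) ∧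
      -- the number of the empty intervals of length `H` between `X = 2 ^ j` and `2 X`
      (∀ δ : ℝ, 0 < δ → ∀ᵐ ω ∂μ, ∀ᶠ j : ℕ in atTop, ∀ X : ℝ, X = 2 ^ j → ∀ H : ℕ,
        Real.log X * Real.log (Real.log X) ^ 3 ≤ H → (H : ℝ) ≤ 1 / δ * Real.log X ^ 2 →
        (minSifted H ⌊H / Real.log X⌋₊ + δ) * H ≤ (1 - δ) * Real.log X ^ 2 →
          X * Real.exp (-((minSifted H ⌊H / Real.log X⌋₊ + δ) * (H / Real.log X))) ≤
            emptyIntervals (hybrid z y b (fun p => A p ω)) j H) := by
  have hR : ∀ {Ω : Type} [MeasurableSpace Ω] {μ : Measure Ω} {A : ℕ → Ω → ℕ},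
      RandomClasses μ A → Pool.Agent.H532.RM.RandomClasses μ A := fun h =>
    ⟨h.meas, h.indep, h.unif⟩
  simp only [minSifted_eq]
  refine ⟨?_, ⟨Pool.Agent.H532.RM.zBFT_mono, Pool.Agent.H532.RM.zBFT_lim⟩, ?_⟩
  · obtain ⟨μ, h1, h2⟩ := Pool.Agent.H532.RM.exists_randomClasses
    exact ⟨μ, h1, ⟨h2.meas, h2.indep, h2.unif⟩⟩
  · intro Ω _ μ _ A hA z hz y b hy
    have hy' := Pool.Agent.H532.HY.subE_of hy
    refine ⟨fun c hc => Pool.Agent.H532.HY.granville_real y b hy' c hc μ A (hR hA) z hz.mono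
      hz.lim, fun δ hδ => ?_⟩
    obtain ⟨δ', hδ'⟩ : ∃ δ' : ℝ, δ' = min δ 1 := ⟨_, rfl⟩
    have hδ0 : 0 < δ' := by rw [hδ']; exact lt_min hδ one_pos
    have hδ1 : δ' ≤ 1 := by rw [hδ']; exact min_le_right _ _
    have hδδ : δ' ≤ δ := by rw [hδ']; exact min_le_left _ _
    filter_upwards [Pool.Agent.H532.HY.universal y b hy' δ' hδ0 hδ1 μ A (hR hA) z hz.mono
      hz.lim] with ω hω
    filter_upwards [hω] with j hj X hX H hH1 hH2 hc
    have hlog : Real.log X = j * Real.log 2 := by rw [hX, Real.log_pow]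
    have hL0 : 0 ≤ (j : ℝ) * Real.log 2 := by
      have := Real.log_nonneg (show (1 : ℝ) ≤ 2 by norm_num)
      positivity
    rw [hlog] at hH1 hH2 hc ⊢
    have hh0 : 0 ≤ (H : ℝ) / (j * Real.log 2) := div_nonneg (Nat.cast_nonneg _) hL0
    have h4 : δ' * (H : ℝ) ≤ δ * H := by gcongr
    have h5 : δ' * ((j : ℝ) * Real.log 2) ^ 2 ≤ δ * ((j : ℝ) * Real.log 2) ^ 2 := by gcongr
    refine le_trans ?_ (hj H hH1 (hH2.trans (by gcongr)) (by nlinarith))
    rw [hX]
    have h6 : (Pool.Agent.H532.RM.rm H ⌊(H : ℝ) / (j * Real.log 2)⌋₊ + δ') *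
        (H / (j * Real.log 2)) ≤ (Pool.Agent.H532.RM.rm H ⌊(H : ℝ) / (j * Real.log 2)⌋₊ + δ) *
        (H / (j * Real.log 2)) := by gcongr
    exact mul_le_mul_of_nonneg_left (Real.exp_le_exp.2 (neg_le_neg h6)) (by positivity)

end Pool.Agent.Results.MP_45ff98_nt.EveryHybridSieve
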